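import Pool.Agent.EC.Key8

/-!
# An even class of dual Thurston norm one which is not the Euler class of a circle action

`M = H3 / Γ` is a closed orientable hyperbolic 3-manifold with positive first Betti number and
`a ∈ H²(M; ℤ)` has dual Thurston norm `1` and is, modulo torsion, twice an integral class (as the
Euler classes of plane fields are), but the real class of `a` is not the real Euler class of any
homomorphism from `Γ = π₁(M)` to the group of the orientation preserving homeomorphisms of the
circle.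
-/

set_option autoImplicit false

namespace Pool.Agent.Results.MP_a825f6_gt.DualNormEven

open Pool.Agent.EC Pool.Agent.EC.Stmt

/-- There are a closed orientable hyperbolic 3-manifold `M = H3 / Γ` with `b₁(M) ≥ 1` and an
integral class `a` on `M` with `x^*(a) = 1` which is not realised: `e_ℝ(ρ) ≠ a` for every
homomorphism `ρ` from `Γ = π₁(M)` to `Homeo₊(S¹)`. The class `a` is even: for some integral class
`b` its values on all maps `φ : π₁(Σ_g) → Γ` of closed oriented surfaces to `M` are `2 b(φ)`.
Moreover `|a(φ)| ≤ 2 g - 2` for every such map of a surface of genus `g ≥ 1`, embedded or not. -/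
theorem result : ∃ (Γ : Type) (_ : Group Γ) (A : Γ → Matrix (Fin 4) (Fin 4) ℝ),
    HypMfd A ∧ Stmt.BettiPos Γ ∧ ∃ a : ZExt Γ, Stmt.dualNorm A a = 1 ∧
      (∃ b : ZExt Γ, ∀ (g : ℕ) (φ : SurfGroup g →* Γ), a.eval φ = 2 * b.eval φ) ∧
      (∀ ρ : Γ →* HomeoPlus, ¬ EulerEq ρ a) ∧
      ∀ g : ℕ, 1 ≤ g → ∀ φ : SurfGroup g →* Γ, |a.eval φ| ≤ 2 * (g : ℤ) - 2 :=
  Final8.final8' Key8.isSx_Sx2 Key8.isSz_Sz
    (Key8.key (Bridge8.tau_zero ▸ Final8.isSx_Sx) Key8.isSx_Sx2 Key8.isSz_Sz)

end Pool.Agent.Results.MP_a825f6_gt.DualNormEven
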